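import Pool.Agent.Helper6.NX.GoalsD

/-! Packet NX-KEY: the expected number of colourings of a product of random conjugates. -/

set_option linter.unusedVariables false

namespace Pool.Agent.Helper95.NX

open Matrix Equiv Filter Topology Pool.Agent.Helper15.An Pool.Agent.Helper6.NX

variable {n : ℕ}

theorem fixc_inv' (g : Perm (Fin n)) : fixc g⁻¹ = fixc g := by
  unfold fixc
  congr 1
  ext x
  simp only [Finset.mem_filter, Finset.mem_univ, true_and]
  rw [Equiv.Perm.inv_eq_iff_eq]
  exact eq_comm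

theorem typ_sum {x : ℕ} (V : Perm (Fin n)) (χ : Fin n → Fin (x + 1)) :
    ∑ t, typ V χ t = n := by
  unfold typ
  have := Finset.card_eq_sum_card_fiberwise (s := (Finset.univ : Finset (Fin n)))
    (t := (Finset.univ : Finset (Fin (x + 1) × Fin (x + 1))))
    (f := fun p => (χ p, χ (V p))) (by intro _ _; simp)
  rw [← this]
  simp

theorem prod_typ {x : ℕ} (V : Perm (Fin n)) (χ : Fin n → Fin (x + 1))
    (z : Fin (x + 1) × Fin (x + 1) → ℝ) :
    ∏ t, z t ^ typ V χ t = ∏ p, z (χ p, χ (V p)) := by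
  rw [← Finset.prod_fiberwise (s := (Finset.univ : Finset (Fin n)))
    (g := fun p => (χ p, χ (V p))) (f := fun p => z (χ p, χ (V p)))]
  refine Finset.prod_congr rfl fun t _ => ?_
  unfold typ
  rw [← Finset.prod_const]
  refine Finset.prod_congr rfl fun p hp => ?_
  rw [(Finset.mem_filter.1 hp).2]

/-- the points of type different from `(0,0)` -/
theorem typ_off {x s : ℕ} (V : Perm (Fin n)) (χ : Fin n → Fin (x + 1))
    (h : (Finset.univ.filter fun p => χ p ≠ 0).card = s) :
    ∑ t ∈ Finset.univ.erase ((0, 0) : Fin (x + 1) × Fin (x + 1)), typ V χ t ≤ 2 * s := by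
  classical
  have h1 : ∑ t ∈ Finset.univ.erase ((0, 0) : Fin (x + 1) × Fin (x + 1)), typ V χ t =
      (Finset.univ.filter fun p => (χ p, χ (V p)) ≠ (0, 0)).card := by
    have := Finset.card_eq_sum_card_fiberwise
      (s := (Finset.univ.filter fun p => (χ p, χ (V p)) ≠ (0, 0)))
      (t := (Finset.univ.erase ((0, 0) : Fin (x + 1) × Fin (x + 1))))
      (f := fun p => (χ p, χ (V p))) (by
        intro p hp
        simp only [Finset.coe_filter, Finset.mem_univ, true_and, Set.mem_ofPred_eq] at hp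
        simp only [Finset.coe_erase, Finset.coe_univ, Set.mem_sdiff, Set.mem_univ, true_and,
          Set.mem_singleton_iff]
        exact hp)
    rw [this]
    refine Finset.sum_congr rfl fun t ht => ?_
    unfold typ
    congr 1
    ext p
    simp only [Finset.mem_filter, Finset.mem_univ, true_and]
    constructor
    · intro hp
      refine ⟨?_, hp⟩
      rw [hp]
      exact Finset.ne_of_mem_erase ht
    · exact fun hp => hp.2
  rw [h1]
  have h2 : (Finset.univ.filter fun p => (χ p, χ (V p)) ≠ (0, 0)) ⊆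
      (Finset.univ.filter fun p => χ p ≠ 0) ∪ (Finset.univ.filter fun p => χ (V p) ≠ 0) := by
    intro p hp
    simp only [Finset.mem_filter, Finset.mem_univ, true_and, ne_eq, Prod.mk.injEq,
      Finset.mem_union] at hp ⊢
    by_contra hc
    push Not at hc
    exact hp ⟨hc.1, hc.2⟩
  have h3 : (Finset.univ.filter fun p => χ (V p) ≠ 0).card = s := by
    rw [← h]
    refine Finset.card_bij (fun p _ => V p) ?_ ?_ ?_
    · intro p hp
      simpa using hp
    · intro p _ q _ hpq
      exact V.injective hpq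
    · intro q hq
      refine ⟨V⁻¹ q, ?_, by simp⟩
      simpa using hq
  calc (Finset.univ.filter fun p => (χ p, χ (V p)) ≠ (0, 0)).card
      ≤ _ := Finset.card_le_card h2
    _ ≤ _ := Finset.card_union_le _ _
    _ = 2 * s := by rw [h, h3]; ring

/-- the diagonal types -/
theorem typ_diag {x s : ℕ} (V : Perm (Fin n)) (χ : Fin n → Fin (x + 1))
    (h : (Finset.univ.filter fun p => χ p ≠ 0).card = s) :
    ∑ i : Fin x, typ V χ (i.succ, i.succ) ≤ s := by
  classical
  have h1 : ∑ i : Fin x, typ V χ (i.succ, i.succ) ≤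
      ∑ i : Fin x, (Finset.univ.filter fun p => χ p = i.succ).card := by
    refine Finset.sum_le_sum fun i _ => ?_
    unfold typ
    refine Finset.card_le_card fun p hp => ?_
    simp only [Finset.mem_filter, Finset.mem_univ, true_and, Prod.mk.injEq] at hp ⊢
    exact hp.1
  have h2 : ∑ i : Fin x, (Finset.univ.filter fun p => χ p = i.succ).card ≤
      (Finset.univ.filter fun p => χ p ≠ 0).card := by
    rw [← Finset.card_biUnion]
    · refine Finset.card_le_card fun p hp => ?_
      simp only [Finset.mem_biUnion, Finset.mem_univ, true_and, Finset.mem_filter] at hp ⊢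
      obtain ⟨i, hi⟩ := hp
      rw [hi]
      exact Fin.succ_ne_zero i
    · intro i _ j _ hij
      rw [Function.onFun, Finset.disjoint_left]
      intro p hp hq
      simp only [Finset.mem_filter, Finset.mem_univ, true_and] at hp hq
      rw [hp] at hq
      exact hij (Fin.succ_injective _ hq)
  rw [← h]
  exact h1.trans h2

theorem trace_le {x s : ℕ} (hn : 1 ≤ n) (N : Fin (x + 1) × Fin (x + 1) → ℕ)
    (h1 : ∑ t, N t = n) (h2 : ∑ i : Fin x, N (i.succ, i.succ) ≤ s) :
    ∑ i : Fin (x + 1), √((N (i, i) : ℝ) / n) ≤ 1 + √(x * s / n) := by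
  have hn' : (0 : ℝ) < n := by exact_mod_cast hn
  rw [Fin.sum_univ_succ]
  refine add_le_add ?_ ?_
  · have h0 : N (0, 0) ≤ ∑ t, N t :=
      Finset.single_le_sum (fun _ _ => Nat.zero_le _) (Finset.mem_univ _)
    rw [h1] at h0
    have h0' : ((N (0, 0) : ℕ) : ℝ) / n ≤ 1 := by
      rw [div_le_one hn']
      exact_mod_cast h0
    calc √((N (0, 0) : ℝ) / n) ≤ √1 := Real.sqrt_le_sqrt h0'
      _ = 1 := Real.sqrt_one
  · have hcs := Finset.sum_mul_sq_le_sq_mul_sq (Finset.univ : Finset (Fin x))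
      (fun _ => (1 : ℝ)) (fun i => √((N (i.succ, i.succ) : ℝ) / n))
    apply Real.le_sqrt_of_sq_le
    have e1 : (∑ i : Fin x, (1 : ℝ) * √((N (i.succ, i.succ) : ℝ) / n)) =
        ∑ i : Fin x, √((N (i.succ, i.succ) : ℝ) / n) := by simp
    have e2 : ∑ i : Fin x, (1 : ℝ) ^ 2 = x := by simp
    have e3 : ∑ i : Fin x, √((N (i.succ, i.succ) : ℝ) / n) ^ 2 ≤ s / n := by
      have : ∀ i : Fin x, √((N (i.succ, i.succ) : ℝ) / n) ^ 2 = (N (i.succ, i.succ) : ℝ) / n :=
        fun i => Real.sq_sqrt (by positivity)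
      rw [Finset.sum_congr rfl fun i _ => this i, ← Finset.sum_div]
      have : (∑ i : Fin x, (N (i.succ, i.succ) : ℝ)) ≤ s := by exact_mod_cast h2
      gcongr
    rw [e1, e2] at hcs
    calc (∑ i : Fin x, √((N (i.succ, i.succ) : ℝ) / n)) ^ 2 ≤
        (x : ℝ) * ∑ i : Fin x, √((N (i.succ, i.succ) : ℝ) / n) ^ 2 := hcs
      _ ≤ (x : ℝ) * (s / n) := by gcongr
      _ = x * s / n := by ring

theorem two_pow_le (s : ℕ) : (2 : ℝ) ^ (11 * s) ≤ Real.exp (8 * s) := by
  have h : (2 : ℝ) ^ 11 ≤ Real.exp 8 := by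
    have h1 : (2.7182818283 : ℝ) < Real.exp 1 := Real.exp_one_gt_d9
    have h2 : Real.exp 8 = Real.exp 1 ^ 8 := by
      rw [← Real.exp_nat_mul]; norm_num
    rw [h2]
    calc (2 : ℝ) ^ 11 ≤ (2.7182818283 : ℝ) ^ 8 := by norm_num
      _ ≤ Real.exp 1 ^ 8 := by gcongr
  calc (2 : ℝ) ^ (11 * s) = ((2 : ℝ) ^ 11) ^ s := by rw [pow_mul]
    _ ≤ (Real.exp 8) ^ s := by gcongr
    _ = Real.exp (8 * s) := by rw [← Real.exp_nat_mul]; ring_nf

theorem thmKEY (hkeya : Pool.Agent.Helper6.NX.S_KEYA) (hkeyb : Pool.Agent.Helper6.NX.S_KEYB)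
    (hkeyc : Pool.Agent.Helper6.NX.S_KEYC) : Pool.Agent.Helper6.NX.S_KEY := by
  classical
  intro n x s V V' hs hsn hx
  have hn : 1 ≤ n := hs.trans hsn
  have hn' : (0 : ℝ) < n := by exact_mod_cast hn
  set B : ℝ := 1 + √(x * s / n) with hB
  have hB0 : 0 ≤ B := by positivity
  obtain ⟨hc1, hc2⟩ := hkeyc (Fin (x + 1) × Fin (x + 1)) (0, 0) n s hn
  set T : Finset (Fin (x + 1) × Fin (x + 1) → ℕ) := (sup0 n x s).image (typ V) with hT
  have hsup : ∀ χ : Fin n → Fin (x + 1), χ ∈ sup0 n x s →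
      (Finset.univ.filter fun p => χ p ≠ 0).card = s := fun χ h => (Finset.mem_filter.1 h).2
  have hTcard : T.card ≤ 2 ^ (2 * s + Fintype.card (Fin (x + 1) × Fin (x + 1))) := by
    refine hc2 T ?_
    intro N hN
    obtain ⟨χ, hχ, rfl⟩ := Finset.mem_image.1 hN
    exact ⟨typ_sum V χ, typ_off V χ (hsup χ hχ)⟩
  have hx9 : (x + 1) * (x + 1) ≤ 9 * s := by
    rcases Nat.lt_or_ge x 2 with h | h
    · interval_cases x <;> omega
    · nlinarith
  have hTcard' : (T.card : ℝ) ≤ Real.exp (8 * s) := by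
    refine le_trans ?_ (two_pow_le s)
    have : T.card ≤ 2 ^ (11 * s) := by
      refine hTcard.trans (Nat.pow_le_pow_right (by norm_num) ?_)
      rw [Fintype.card_prod, Fintype.card_fin]
      omega
    exact_mod_cast this
  -- the sum over one type
  have key : ∀ N ∈ T, ∑ χ ∈ (sup0 n x s).filter (fun χ => typ V χ = N),
      ∑ χ' ∈ (sup0 n x s).filter (fun χ' => typ V'⁻¹ χ' = N), ∏ t, ((N t).factorial : ℝ) ≤
      n.factorial * Real.exp (4 * s) * B ^ (fixc V + fixc V') := by
    intro N hN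
    obtain ⟨χ₀, hχ₀, hN₀⟩ := Finset.mem_image.1 hN
    have hNs : ∑ t, N t = n := by rw [← hN₀]; exact typ_sum V χ₀
    have hNo : ∑ t ∈ Finset.univ.erase ((0, 0) : Fin (x + 1) × Fin (x + 1)), N t ≤ 2 * s := by
      rw [← hN₀]; exact typ_off V χ₀ (hsup χ₀ hχ₀)
    have hNd : ∑ i : Fin x, N (i.succ, i.succ) ≤ s := by
      rw [← hN₀]; exact typ_diag V χ₀ (hsup χ₀ hχ₀)
    set z : Fin (x + 1) × Fin (x + 1) → ℝ := fun t => √((N t : ℝ) / n) with hz
    have hz0 : ∀ t, 0 ≤ z t := fun t => Real.sqrt_nonneg _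
    have hzz : ∀ t, z t * z t = (N t : ℝ) / n := fun t => Real.mul_self_sqrt (by positivity)
    have hzsq : ∑ i, ∑ j, z (i, j) ^ 2 ≤ 1 := by
      rw [← Fintype.sum_prod_type']
      have : ∀ t : Fin (x + 1) × Fin (x + 1), z (t.1, t.2) ^ 2 = (N t : ℝ) / n := by
        intro t
        rw [sq, Prod.mk.eta, hzz]
      rw [Finset.sum_congr rfl fun t _ => this t, ← Finset.sum_div]
      have h1 : (∑ t, (N t : ℝ)) = n := by exact_mod_cast hNs
      rw [h1, div_self hn'.ne']
    have hfac : ∏ t, ((N t).factorial : ℝ) ≤ n.factorial * Real.exp (4 * s) *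
        ((∏ t, z t ^ N t) * ∏ t, z t ^ N t) := by
      refine (hc1 N hNs hNo).trans (le_of_eq ?_)
      congr 1
      rw [← Finset.prod_mul_distrib]
      refine Finset.prod_congr rfl fun t _ => ?_
      rw [← mul_pow, hzz]
    have hW : ∀ W : Perm (Fin n),
        ∑ χ ∈ (sup0 n x s).filter (fun χ => typ W χ = N), ∏ t, z t ^ N t ≤ B ^ fixc W := by
      intro W
      have e1 : ∑ χ ∈ (sup0 n x s).filter (fun χ => typ W χ = N), ∏ t, z t ^ N t =
          ∑ χ ∈ (sup0 n x s).filter (fun χ => typ W χ = N), ∏ p, z (χ p, χ (W p)) := by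
        refine Finset.sum_congr rfl fun χ hχ => ?_
        rw [← prod_typ, (Finset.mem_filter.1 hχ).2]
      rw [e1]
      calc ∑ χ ∈ (sup0 n x s).filter (fun χ => typ W χ = N), ∏ p, z (χ p, χ (W p))
          ≤ ∑ χ : Fin n → Fin (x + 1), ∏ p, z (χ p, χ (W p)) :=
            Finset.sum_le_sum_of_subset_of_nonneg (Finset.subset_univ _)
              fun χ _ _ => Finset.prod_nonneg fun p _ => hz0 _
        _ ≤ (∑ i, z (i, i)) ^ fixc W :=
            hkeyb n (x + 1) W (fun i j => z (i, j)) (fun i j => hz0 _) hzsq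
        _ ≤ B ^ fixc W := by
            have := trace_le hn N hNs hNd
            exact pow_le_pow_left₀ (Finset.sum_nonneg fun i _ => hz0 _) this _
    calc ∑ χ ∈ (sup0 n x s).filter (fun χ => typ V χ = N),
        ∑ χ' ∈ (sup0 n x s).filter (fun χ' => typ V'⁻¹ χ' = N), ∏ t, ((N t).factorial : ℝ)
        ≤ ∑ χ ∈ (sup0 n x s).filter (fun χ => typ V χ = N),
          ∑ χ' ∈ (sup0 n x s).filter (fun χ' => typ V'⁻¹ χ' = N),
            n.factorial * Real.exp (4 * s) * ((∏ t, z t ^ N t) * ∏ t, z t ^ N t) :=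
          Finset.sum_le_sum fun χ _ => Finset.sum_le_sum fun χ' _ => hfac
      _ = n.factorial * Real.exp (4 * s) *
          ((∑ χ ∈ (sup0 n x s).filter (fun χ => typ V χ = N), ∏ t, z t ^ N t) *
          ∑ χ' ∈ (sup0 n x s).filter (fun χ' => typ V'⁻¹ χ' = N), ∏ t, z t ^ N t) := by
          rw [Finset.sum_mul_sum, Finset.mul_sum]
          refine Finset.sum_congr rfl fun χ _ => ?_
          rw [Finset.mul_sum]
      _ ≤ n.factorial * Real.exp (4 * s) * (B ^ fixc V * B ^ fixc V'⁻¹) := by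
          have h1 := hW V
          have h2 := hW V'⁻¹
          have h3 : 0 ≤ ∑ χ' ∈ (sup0 n x s).filter (fun χ' => typ V'⁻¹ χ' = N),
              ∏ t, z t ^ N t := Finset.sum_nonneg fun χ _ =>
                Finset.prod_nonneg fun t _ => pow_nonneg (hz0 t) _
          refine mul_le_mul_of_nonneg_left ?_ (by positivity)
          exact mul_le_mul h1 h2 h3 (by positivity)
      _ = n.factorial * Real.exp (4 * s) * B ^ (fixc V + fixc V') := by
          rw [fixc_inv', pow_add]
  -- the whole sum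
  have hsum : ∑ χ ∈ sup0 n x s, ∑ χ' ∈ sup0 n x s,
      (if typ V χ = typ V'⁻¹ χ' then ∏ t, ((typ V χ t).factorial : ℝ) else 0) ≤
      T.card * (n.factorial * Real.exp (4 * s) * B ^ (fixc V + fixc V')) := by
    have e1 : ∑ χ ∈ sup0 n x s, ∑ χ' ∈ sup0 n x s,
        (if typ V χ = typ V'⁻¹ χ' then ∏ t, ((typ V χ t).factorial : ℝ) else 0) =
        ∑ N ∈ T, ∑ χ ∈ (sup0 n x s).filter (fun χ => typ V χ = N),
          ∑ χ' ∈ (sup0 n x s).filter (fun χ' => typ V'⁻¹ χ' = N),
            ∏ t, ((N t).factorial : ℝ) := by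
      rw [← Finset.sum_fiberwise_of_maps_to (s := sup0 n x s) (t := T) (g := typ V)
        (fun χ hχ => Finset.mem_image_of_mem _ hχ)]
      refine Finset.sum_congr rfl fun N _ => Finset.sum_congr rfl fun χ hχ => ?_
      rw [Finset.sum_filter]
      refine Finset.sum_congr rfl fun χ' _ => ?_
      rw [(Finset.mem_filter.1 hχ).2]
      by_cases h : typ V'⁻¹ χ' = N
      · rw [if_pos h, if_pos h.symm]
      · rw [if_neg h, if_neg fun h' => h h'.symm]
    rw [e1]
    calc ∑ N ∈ T, ∑ χ ∈ (sup0 n x s).filter (fun χ => typ V χ = N),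
          ∑ χ' ∈ (sup0 n x s).filter (fun χ' => typ V'⁻¹ χ' = N),
            ∏ t, ((N t).factorial : ℝ)
        ≤ ∑ N ∈ T, n.factorial * Real.exp (4 * s) * B ^ (fixc V + fixc V') :=
          Finset.sum_le_sum key
      _ = T.card * (n.factorial * Real.exp (4 * s) * B ^ (fixc V + fixc V')) := by
          rw [Finset.sum_const, nsmul_eq_mul]
  have hfac0 : (0 : ℝ) < n.factorial := by exact_mod_cast n.factorial_pos
  calc (n.factorial : ℝ)⁻¹ * ∑ y : Perm (Fin n), colc x s (V * (y * V' * y⁻¹))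
      ≤ (n.factorial : ℝ)⁻¹ *
        (T.card * (n.factorial * Real.exp (4 * s) * B ^ (fixc V + fixc V'))) := by
        gcongr
        exact (hkeya n x s V V').trans hsum
    _ = T.card * (Real.exp (4 * s) * B ^ (fixc V + fixc V')) := by
        field_simp
    _ ≤ Real.exp (8 * s) * (Real.exp (4 * s) * B ^ (fixc V + fixc V')) := by
        gcongr
    _ = Real.exp (12 * s) * B ^ (fixc V + fixc V') := by
        rw [← mul_assoc, ← Real.exp_add]
        congr 2
        ring

end Pool.Agent.Helper95.NX
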